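import Pool.Agent.H27.T2.Block

/-!
# Selection of a class and of a residue (module FE of the project T2)
-/

set_option autoImplicit false

open Finset Filter

namespace Pool.Agent.H27.T2

open Pool.Agent.H24.T2 (Fr)

variable {r : ℕ} (α : Fin r → ℤ) (ε : Fin r → ℕ)

open Classical in
/-- the opposite signs in a class, logarithmically -/
lemma loc_opp_sum {κ : ℝ} {q n₀ h o N W c : ℕ} (hh : 0 < h) (ho : o < h) :
    ∑ m ∈ (Icc 1 N).filter (fun m => m ≡ c [MOD W] ∧ loc α ε κ q n₀ h o m ≠ 0 ∧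
        Fr α ε m = -(loc α ε κ q n₀ h o m : ℝ)), (1 : ℝ) / m ≤
      ∑ n ∈ (Icc 1 N).filter (fun n => BadW α ε κ q n₀ n h ∧ n ≡ o [MOD h]),
        (opp α ε q n₀ W c n h : ℝ) * (1 / n) := by
  set S := (Icc 1 N).filter (fun m => m ≡ c [MOD W] ∧ loc α ε κ q n₀ h o m ≠ 0 ∧
        Fr α ε m = -(loc α ε κ q n₀ h o m : ℝ)) with hS
  set A := (Icc 1 N).filter (fun n => BadW α ε κ q n₀ n h ∧ n ≡ o [MOD h]) with hA
  have key : ∀ m ∈ S, bl h o m ∈ A ∧ bl h o m < m ∧ m ≤ bl h o m + h ∧ m ≡ c [MOD W] ∧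
      Fr α ε m = -(sg α ε q n₀ (bl h o m) h : ℝ) := by
    intro m hm
    rw [hS, mem_filter, mem_Icc] at hm
    obtain ⟨hm1, hm2, hm3, hm4⟩ := hm
    unfold loc at hm3 hm4
    split_ifs at hm3 hm4 with hc
    · obtain ⟨e1, e2, e3⟩ := bl_spec hh ho hm1.1 hc.2.1
      refine ⟨?_, e1, e2, hm2, hm4⟩
      rw [hA, mem_filter, mem_Icc]
      exact ⟨⟨hc.1, by omega⟩, hc.2.2, e3⟩
    · exact absurd rfl hm3
  have hmaps : ∀ m ∈ S, bl h o m ∈ A := fun m hm => (key m hm).1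
  rw [← Finset.sum_fiberwise_of_maps_to hmaps]
  apply Finset.sum_le_sum
  intro n hn
  rw [hA, mem_filter, mem_Icc] at hn
  have hnR : (0 : ℝ) < n := by
    have : 0 < n := by omega
    exact_mod_cast this
  have h1 : ∑ m ∈ S.filter (fun m => bl h o m = n), (1 : ℝ) / m ≤
      ∑ m ∈ S.filter (fun m => bl h o m = n), (1 : ℝ) / n := by
    apply Finset.sum_le_sum
    intro m hm
    rw [mem_filter] at hm
    have := (key m hm.1).2.1
    rw [hm.2] at this
    apply one_div_le_one_div_of_le hnR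
    exact_mod_cast this.le
  refine h1.trans ?_
  rw [Finset.sum_const, nsmul_eq_mul]
  apply mul_le_mul_of_nonneg_right _ (by positivity)
  rw [Nat.cast_le]
  unfold opp
  apply Finset.card_le_card
  intro m hm
  rw [mem_filter] at hm
  obtain ⟨_, e1, e2, e3, e4⟩ := key m hm.1
  rw [hm.2] at e1 e2 e4
  rw [mem_filter, mem_Ioc]
  exact ⟨⟨e1, e2⟩, e3, e4⟩

open Classical in
/-- the data of a level -/
def Lev (δ κ : ℝ) (q n₀ W c h N o : ℕ) : Prop :=
  o < h ∧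
  δ * Real.log N - 4 * h ≤
    ∑ m ∈ (Icc 1 N).filter (fun m => loc α ε κ q n₀ h o m ≠ 0), (1 : ℝ) / m ∧
  ∑ m ∈ (Icc 1 N).filter (fun m => m ≡ c [MOD W] ∧ loc α ε κ q n₀ h o m ≠ 0 ∧
    Fr α ε m = -(loc α ε κ q n₀ h o m : ℝ)), (1 : ℝ) / m ≤ 2 * κ * Real.log N / W

open Classical in
lemma exists_lev (hε : ∀ i, 1 ≤ ε i) {δ κ : ℝ} (hδ : 0 < δ) (hκ : 0 ≤ κ) {q n₀ w W h N : ℕ}
    (hW : 0 < W) (hqW : q ∣ W) (hsqW : ∀ p : ℕ, p.Prime → p ≤ w → p ^ 2 ∣ W)
    (hWh : W ≤ h) (hhN : 2 * h ≤ N) (hlog : (h : ℝ) + 1 ≤ Real.log N)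
    (hb : δ * Real.log N <
      ∑ n ∈ (Icc 1 N).filter (fun n => BadW α ε κ q n₀ n h), (1 : ℝ) / n) :
    ∃ c ∈ good α q n₀ w W, ∃ o, Lev α ε δ κ q n₀ W c h N o := by
  have hh : 0 < h := by omega
  have hhR : (0 : ℝ) < h := by exact_mod_cast hh
  have hWR : (0 : ℝ) < W := by exact_mod_cast hW
  have hlogN : 0 < Real.log N := by linarith
  -- good is nonempty
  have hne : (good α q n₀ w W).Nonempty := by
    by_contra hemp
    rw [Finset.not_nonempty_iff_eq_empty] at hemp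
    have : (Icc 1 N).filter (fun n => BadW α ε κ q n₀ n h) = ∅ := by
      rw [Finset.filter_eq_empty_iff]
      intro n _ hbad
      unfold BadW at hbad
      have hz : ∀ m ∈ win q n₀ n h, Fr α ε m = 0 := by
        intro m hm
        by_contra hF
        unfold win at hm
        rw [mem_filter] at hm
        have := mem_good α ε hε hW hqW hsqW hm.2 hF
        rw [hemp] at this
        simp at this
      rw [Finset.sum_eq_zero hz, Finset.sum_eq_zero
        (fun m hm => by rw [hz m hm, abs_zero])] at hbad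
      simp at hbad
    rw [this, Finset.sum_empty] at hb
    have : 0 < δ * Real.log N := mul_pos hδ hlogN
    linarith
  -- choose the residue
  obtain ⟨o, ho, hSo⟩ : ∃ o ∈ range h, δ * Real.log N / h ≤
      ∑ n ∈ (Icc 1 N).filter (fun n => BadW α ε κ q n₀ n h ∧ n ≡ o [MOD h]), (1 : ℝ) / n := by
    apply Finset.exists_le_of_sum_le ⟨0, mem_range.2 hh⟩
    rw [Finset.sum_const, card_range, nsmul_eq_mul]
    have e1 : (h : ℝ) * (δ * Real.log N / h) = δ * Real.log N := by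
      field_simp
    rw [e1]
    refine hb.le.trans (le_of_eq ?_)
    have hmaps : ∀ n ∈ (Icc 1 N).filter (fun n => BadW α ε κ q n₀ n h), n % h ∈ range h :=
      fun n _ => mem_range.2 (Nat.mod_lt _ hh)
    rw [← Finset.sum_fiberwise_of_maps_to hmaps]
    apply Finset.sum_congr rfl
    intro o ho
    rw [mem_range] at ho
    apply Finset.sum_congr _ fun _ _ => rfl
    ext n
    rw [mem_filter, mem_filter, mem_filter]
    have : n % h = o ↔ n ≡ o [MOD h] := by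
      unfold Nat.ModEq
      rw [Nat.mod_eq_of_lt ho]
    rw [this]
    tauto
  rw [mem_range] at ho
  set A := (Icc 1 N).filter (fun n => BadW α ε κ q n₀ n h ∧ n ≡ o [MOD h]) with hA
  have hSup : ∑ n ∈ A, (1 : ℝ) / n ≤ 2 * Real.log N / h := by
    have h1 : ∑ n ∈ A, (1 : ℝ) / n ≤
        ∑ n ∈ (Icc 1 N).filter (fun n => n ≡ o [MOD h]), (1 : ℝ) / n := by
      apply Finset.sum_le_sum_of_subset_of_nonneg
      · intro n hn
        rw [hA, mem_filter] at hn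
        rw [mem_filter]
        exact ⟨hn.1, hn.2.2⟩
      · intro i _ _
        positivity
    refine (h1.trans (sum_inv_modEq_le N h o hh)).trans ?_
    rw [le_div_iff₀ hhR, add_mul, div_mul_cancel₀ _ hhR.ne']
    linarith
  -- choose the class
  obtain ⟨c, hc, hYc⟩ : ∃ c ∈ good α q n₀ w W,
      ∑ n ∈ A, (opp α ε q n₀ W c n h : ℝ) * (1 / n) ≤
        κ / 2 * (h / W + 1) * ∑ n ∈ A, (1 : ℝ) / n := by
    apply Finset.exists_le_of_sum_le hne
    rw [Finset.sum_comm, Finset.sum_const, nsmul_eq_mul]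
    have : ∀ n ∈ A, ∑ c ∈ good α q n₀ w W, (opp α ε q n₀ W c n h : ℝ) * (1 / n) ≤
        κ / 2 * ((good α q n₀ w W).card * (h / W + 1)) * (1 / n) := by
      intro n hn
      rw [hA, mem_filter] at hn
      rw [← Finset.sum_mul]
      apply mul_le_mul_of_nonneg_right _ (by positivity)
      exact sum_opp_le α ε hε hκ hW hqW hsqW hn.2.1
    refine (Finset.sum_le_sum this).trans (le_of_eq ?_)
    rw [← Finset.mul_sum]
    ring
  refine ⟨c, hc, o, ho, ?_, ?_⟩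
  · have h1 := loc_ne_zero_sum α ε (κ := κ) (q := q) (n₀ := n₀) hh ho hhN
    rw [← hA] at h1
    have h2 : δ * Real.log N ≤ h * ∑ n ∈ A, (1 : ℝ) / n := by
      rw [div_le_iff₀ hhR] at hSo
      linarith
    linarith
  · refine (loc_opp_sum α ε (κ := κ) (q := q) (n₀ := n₀) (W := W) (c := c) (N := N) hh ho).trans ?_
    rw [← hA]
    refine hYc.trans ?_
    have h1 : (h : ℝ) / W + 1 ≤ 2 * h / W := by
      rw [le_div_iff₀ hWR, add_mul, div_mul_cancel₀ _ hWR.ne']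
      have : (W : ℝ) ≤ h := by exact_mod_cast hWh
      linarith
    have h0 : 0 ≤ ∑ n ∈ A, (1 : ℝ) / n := Finset.sum_nonneg fun _ _ => by positivity
    calc κ / 2 * (h / W + 1) * ∑ n ∈ A, (1 : ℝ) / n
        ≤ κ / 2 * (2 * h / W) * (2 * Real.log N / h) := by
          apply mul_le_mul _ hSup h0 (by positivity)
          exact mul_le_mul_of_nonneg_left h1 (by positivity)
      _ = 2 * κ * Real.log N / W := by
          field_simp

/-- finite pigeonhole for nested infinite sets -/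
lemma pigeon {s : Finset ℕ} {P : ℕ → ℕ → Prop}
    (h : ∀ a, ∃ b, a ≤ b ∧ ∃ c ∈ s, P b c) : ∃ c ∈ s, ∀ a, ∃ b, a ≤ b ∧ P b c := by
  by_contra hcon
  push Not at hcon
  choose! f hf using hcon
  obtain ⟨b, hb, c, hc, hP⟩ := h (s.sup f)
  exact hf c hc b ((Finset.le_sup hc).trans hb) hP

open Classical in
/-- one class for all levels -/
lemma exists_class (hε : ∀ i, 1 ≤ ε i) {δ κ : ℝ} (hδ : 0 < δ) (hκ : 0 ≤ κ) {q n₀ w W : ℕ}
    (hW : 0 < W) (hqW : q ∣ W) (hsqW : ∀ p : ℕ, p.Prime → p ≤ w → p ^ 2 ∣ W)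
    (hb : ∀ h₀ : ℕ, ∃ h : ℕ, h₀ ≤ h ∧ ∀ N₀ : ℕ, ∃ N : ℕ, N₀ ≤ N ∧ δ * Real.log N <
      ∑ n ∈ (Icc 1 N).filter (fun n => BadW α ε κ q n₀ n h), (1 : ℝ) / n) :
    ∃ c ∈ good α q n₀ w W, ∀ h₀ : ℕ, ∃ h : ℕ, h₀ ≤ h ∧ ∀ N₀ : ℕ, ∃ N : ℕ, N₀ ≤ N ∧
      ∃ o, Lev α ε δ κ q n₀ W c h N o := by
  apply pigeon
  intro h₀
  obtain ⟨h, hh, hN⟩ := hb (max h₀ W)
  refine ⟨h, (le_max_left _ _).trans hh, ?_⟩
  apply pigeon
  intro N₀
  have hlim : Tendsto (fun N : ℕ => Real.log N) atTop atTop :=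
    Real.tendsto_log_atTop.comp tendsto_natCast_atTop_atTop
  obtain ⟨N₁, hN₁⟩ := Filter.eventually_atTop.1 (hlim.eventually_ge_atTop ((h : ℝ) + 1))
  obtain ⟨N, hNN, hbad⟩ := hN (max N₀ (max N₁ (2 * h)))
  refine ⟨N, (le_max_left _ _).trans hNN, ?_⟩
  exact exists_lev α ε hε hδ hκ hW hqW hsqW ((le_max_right _ _).trans hh)
    (((le_max_right _ _).trans (le_max_right _ _)).trans hNN)
    (hN₁ N (((le_max_left _ _).trans (le_max_right _ _)).trans hNN)) hbad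

end Pool.Agent.H27.T2
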