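import Pool.Agent.H27.T2.Window

/-!
# Blocks of length `h` and the local sign function (module FE of the project T2)
-/

set_option autoImplicit false

open Finset Filter

namespace Pool.Agent.H27.T2

open Pool.Agent.H24.T2 (Fr)

variable {r : ℕ} (α : Fin r → ℤ) (ε : Fin r → ℕ)

/-- index of the block of `m` -/
def bi (h o m : ℕ) : ℕ := (m - 1 + (h - o)) / h

/-- left end point of the block of `m` (the block is `(n, n + h]`) -/
def bl (h o m : ℕ) : ℕ := h * bi h o m - (h - o)

open Classical in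
/-- the local sign function -/
noncomputable def loc (κ : ℝ) (q n₀ h o m : ℕ) : ℤ :=
  if 1 ≤ bl h o m ∧ 1 ≤ bi h o m ∧ BadW α ε κ q n₀ (bl h o m) h then
    sg α ε q n₀ (bl h o m) h else 0

lemma loc_val (κ : ℝ) (q n₀ h o m : ℕ) :
    loc α ε κ q n₀ h o m = 0 ∨ loc α ε κ q n₀ h o m = 1 ∨ loc α ε κ q n₀ h o m = -1 := by
  unfold loc
  split_ifs
  · exact Or.inr (sg_val α ε q n₀ _ h)
  · exact Or.inl rfl

/-- the block of `m` contains `m` -/
lemma bl_spec {h o m : ℕ} (hh : 0 < h) (ho : o < h) (hm : 1 ≤ m) (hb : 1 ≤ bi h o m) :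
    bl h o m < m ∧ m ≤ bl h o m + h ∧ bl h o m ≡ o [MOD h] := by
  unfold bl
  have h1 : h * bi h o m ≤ m - 1 + (h - o) := Nat.mul_div_le _ _
  have h2 : m - 1 + (h - o) < h * (bi h o m + 1) := Nat.lt_mul_div_succ _ hh
  have h3 : h * 1 ≤ h * bi h o m := Nat.mul_le_mul_left h hb
  rw [mul_add, mul_one] at h2
  refine ⟨by omega, by omega, ?_⟩
  have h4 : h * bi h o m - (h - o) = h * (bi h o m - 1) + o := by
    rw [Nat.mul_sub]
    omega
  rw [h4]
  have : (h * (bi h o m - 1) + o) % h = o % h := Nat.mul_add_mod _ _ _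
  exact this

/-- a block with left end point `n` contains exactly the `m` with `bl m = n` -/
lemma bl_eq {h o m n : ℕ} (hh : 0 < h) (ho : o < h) (hn : n ≡ o [MOD h])
    (h1 : n < m) (h2 : m ≤ n + h) : bl h o m = n ∧ 1 ≤ bi h o m := by
  have h3 : n % h = o := by
    have : n % h = o % h := hn
    rwa [Nat.mod_eq_of_lt ho] at this
  have h4 := Nat.div_add_mod n h
  have h5 : bi h o m = n / h + 1 := by
    unfold bi
    have h6 : m - 1 + (h - o) = h * (n / h + 1) + (m - 1 - n) := by
      rw [mul_add, mul_one]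
      omega
    have h7 : (m - 1 - n) / h = 0 := Nat.div_eq_of_lt (by omega)
    rw [h6, Nat.mul_add_div hh, h7, add_zero]
  refine ⟨?_, h5 ▸ Nat.le_add_left 1 _⟩
  unfold bl
  rw [h5, mul_add, mul_one]
  omega

/-- change points of the local sign function -/
lemma loc_change {κ : ℝ} {q n₀ h o m : ℕ} (ho : o < h) (hm : 1 ≤ m)
    (hc : loc α ε κ q n₀ h o m ≠ loc α ε κ q n₀ h o (m + 1)) : m ≡ o [MOD h] := by
  by_contra hne
  apply hc
  have h1 : bi h o m = bi h o (m + 1) := by
    unfold bi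
    have h2 : m + 1 - 1 + (h - o) = (m - 1 + (h - o)) + 1 := by omega
    rw [h2, Nat.succ_div, if_neg, add_zero]
    intro hd
    apply hne
    have h3 : m - 1 + (h - o) + 1 = m + (h - o) := by omega
    rw [h3] at hd
    have h4 : m + (h - o) ≡ o + (h - o) [MOD h] := by
      rw [show o + (h - o) = h by omega]
      exact ((Nat.modEq_zero_iff_dvd).2 hd).trans ((Nat.modEq_zero_iff_dvd).2 dvd_rfl).symm
    exact Nat.ModEq.add_right_cancel' _ h4
  have h2 : bl h o m = bl h o (m + 1) := by
    unfold bl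
    rw [h1]
  unfold loc
  rw [← h1, ← h2]

open Classical in
/-- lower bound for the logarithmic weight of the set where the local sign is not zero -/
lemma loc_ne_zero_sum {κ : ℝ} {q n₀ h o N : ℕ} (hh : 0 < h) (ho : o < h) (hhN : 2 * h ≤ N) :
    (h : ℝ) * ∑ n ∈ (Icc 1 N).filter (fun n => BadW α ε κ q n₀ n h ∧ n ≡ o [MOD h]),
        (1 : ℝ) / n ≤
      ∑ m ∈ (Icc 1 N).filter (fun m => loc α ε κ q n₀ h o m ≠ 0), (1 : ℝ) / m + 4 * h := by
  have hhR : (0 : ℝ) < h := by exact_mod_cast hh
  set A := (Icc 1 N).filter (fun n => BadW α ε κ q n₀ n h ∧ n ≡ o [MOD h]) with hA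
  -- pairs
  set B := A.filter (fun n => n + h ≤ N) with hB
  have hpair : ∑ n ∈ B, ∑ i ∈ range h, (1 : ℝ) / ((n + 1 + i : ℕ) : ℝ) ≤
      ∑ m ∈ (Icc 1 N).filter (fun m => loc α ε κ q n₀ h o m ≠ 0), (1 : ℝ) / m := by
    rw [← Finset.sum_product']
    have hinj : Set.InjOn (fun x : ℕ × ℕ => x.1 + 1 + x.2) (B ×ˢ range h : Finset (ℕ × ℕ)) := by
      rintro ⟨a, i⟩ ha ⟨b, j⟩ hb hab
      rw [mem_coe, mem_product, mem_range, hB, mem_filter, hA, mem_filter] at ha hb
      simp only at ha hb hab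
      have e1 := bl_eq (m := a + 1 + i) hh ho ha.1.1.2.2 (by omega) (by omega)
      have e2 := bl_eq (m := b + 1 + j) hh ho hb.1.1.2.2 (by omega) (by omega)
      rw [hab] at e1
      have : a = b := e1.1.symm.trans e2.1
      subst this
      have : i = j := by omega
      rw [this]
    have := Finset.sum_image (f := fun m : ℕ => (1 : ℝ) / (m : ℝ)) hinj
    rw [← this]
    apply Finset.sum_le_sum_of_subset_of_nonneg
    · intro m hm
      rw [mem_image] at hm
      obtain ⟨⟨n, i⟩, hni, rfl⟩ := hm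
      rw [mem_product, mem_range, hB, mem_filter, hA, mem_filter, mem_Icc] at hni
      simp only at hni ⊢
      obtain ⟨e1, e2⟩ := bl_eq (m := n + 1 + i) hh ho hni.1.1.2.2 (by omega) (by omega)
      rw [mem_filter, mem_Icc]
      refine ⟨⟨by omega, by omega⟩, ?_⟩
      unfold loc
      rw [e1, if_pos ⟨hni.1.1.1.1, e2, hni.1.1.2.1⟩]
      rcases sg_val α ε q n₀ n h with h3 | h3 <;> rw [h3] <;> norm_num
    · intro i _ _
      positivity
  -- compare each window
  have hwin : ∀ n ∈ B, (h : ℝ) * (1 / n) ≤ ∑ i ∈ range h, (1 : ℝ) / ((n + 1 + i : ℕ) : ℝ) +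
      h * (1 / n - 1 / ((n + h : ℕ) : ℝ)) := by
    intro n hn
    rw [hB, mem_filter, hA, mem_filter, mem_Icc] at hn
    have hnR : (0 : ℝ) < n := by
      have : 0 < n := by omega
      exact_mod_cast this
    have h1 : (h : ℝ) * (1 / ((n + h : ℕ) : ℝ)) ≤
        ∑ i ∈ range h, (1 : ℝ) / ((n + 1 + i : ℕ) : ℝ) := by
      have : ∑ i ∈ range h, (1 : ℝ) / ((n + h : ℕ) : ℝ) ≤
          ∑ i ∈ range h, (1 : ℝ) / ((n + 1 + i : ℕ) : ℝ) := by
        apply Finset.sum_le_sum
        intro i hi
        rw [mem_range] at hi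
        apply one_div_le_one_div_of_le
        · push_cast
          positivity
        · exact_mod_cast (show n + 1 + i ≤ n + h by omega)
      simpa using this
    linarith
  have hsumB : (h : ℝ) * ∑ n ∈ B, (1 : ℝ) / n ≤
      ∑ m ∈ (Icc 1 N).filter (fun m => loc α ε κ q n₀ h o m ≠ 0), (1 : ℝ) / m +
        h * ∑ n ∈ B, ((1 : ℝ) / n - 1 / ((n + h : ℕ) : ℝ)) := by
    have := Finset.sum_le_sum hwin
    rw [Finset.sum_add_distrib, ← Finset.mul_sum, ← Finset.mul_sum] at this
    linarith
  -- telescoping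
  have htel : ∑ n ∈ B, ((1 : ℝ) / n - 1 / ((n + h : ℕ) : ℝ)) ≤ 1 := by
    set A' := (Icc 1 N).filter (fun n => n ≡ o [MOD h]) with hA'
    have t1 : ∑ n ∈ B, ((1 : ℝ) / n - 1 / ((n + h : ℕ) : ℝ)) ≤
        ∑ n ∈ A', ((1 : ℝ) / n - 1 / ((n + h : ℕ) : ℝ)) := by
      apply Finset.sum_le_sum_of_subset_of_nonneg
      · intro n hn
        rw [hB, mem_filter, hA, mem_filter] at hn
        rw [hA', mem_filter]
        exact ⟨hn.1.1, hn.1.2.2⟩
      · intro n hn _
        rw [hA', mem_filter, mem_Icc] at hn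
        have hnR : (0 : ℝ) < n := by
          have : 0 < n := by omega
          exact_mod_cast this
        rw [sub_nonneg]
        apply one_div_le_one_div_of_le hnR
        push_cast
        linarith
    refine t1.trans ?_
    rw [Finset.sum_sub_distrib, ← Finset.sum_filter_add_sum_filter_not A' (fun n => n ≤ h)]
    have t2 : ∑ n ∈ A'.filter (fun n => n ≤ h), (1 : ℝ) / n ≤ 1 := by
      have hc : (A'.filter (fun n => n ≤ h)).card ≤ 1 := by
        rw [Finset.card_le_one]
        intro a ha b hb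
        rw [mem_filter, hA', mem_filter, mem_Icc] at ha hb
        have h3 : a - 1 ≡ b - 1 [MOD h] := by
          apply Nat.ModEq.add_right_cancel' 1
          rw [Nat.sub_add_cancel ha.1.1.1, Nat.sub_add_cancel hb.1.1.1]
          exact ha.1.2.trans hb.1.2.symm
        have h4 : (a - 1) % h = (b - 1) % h := h3
        rw [Nat.mod_eq_of_lt (by omega), Nat.mod_eq_of_lt (by omega)] at h4
        omega
      calc _ ≤ ∑ n ∈ A'.filter (fun n => n ≤ h), (1 : ℝ) := by
            apply Finset.sum_le_sum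
            intro n hn
            rw [mem_filter, hA', mem_filter, mem_Icc] at hn
            have : (1 : ℝ) ≤ n := by exact_mod_cast hn.1.1.1
            rw [div_le_one (by linarith)]
            exact this
        _ = ((A'.filter (fun n => n ≤ h)).card : ℝ) := by simp
        _ ≤ 1 := by exact_mod_cast hc
    have t3 : ∑ n ∈ A'.filter (fun n => ¬ n ≤ h), (1 : ℝ) / n ≤
        ∑ n ∈ A', (1 : ℝ) / ((n + h : ℕ) : ℝ) := by
      have hinj : Set.InjOn (fun n => n - h) (A'.filter (fun n => ¬ n ≤ h) : Finset ℕ) := by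
        intro a ha b hb hab
        rw [mem_coe, mem_filter] at ha hb
        simp only at hab
        omega
      have e1 := Finset.sum_image (f := fun n : ℕ => (1 : ℝ) / ((n + h : ℕ) : ℝ)) hinj
      have e2 : ∑ n ∈ A'.filter (fun n => ¬ n ≤ h), (1 : ℝ) / n =
          ∑ n ∈ A'.filter (fun n => ¬ n ≤ h), (1 : ℝ) / ((n - h + h : ℕ) : ℝ) := by
        apply Finset.sum_congr rfl
        intro n hn
        rw [mem_filter] at hn
        rw [Nat.sub_add_cancel (by omega)]
      rw [e2, ← e1]
      apply Finset.sum_le_sum_of_subset_of_nonneg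
      · intro n hn
        rw [mem_image] at hn
        obtain ⟨m, hm, rfl⟩ := hn
        rw [mem_filter, hA', mem_filter, mem_Icc] at hm
        rw [hA', mem_filter, mem_Icc]
        refine ⟨⟨by omega, by omega⟩, ?_⟩
        have h5 : m - h + h ≡ o + h [MOD h] := by
          rw [Nat.sub_add_cancel (by omega)]
          exact hm.1.2.trans (by simp [Nat.ModEq])
        exact Nat.ModEq.add_right_cancel' _ h5
      · intro i _ _
        positivity
    linarith
  -- the last window
  have hlast : ∑ n ∈ A.filter (fun n => ¬ n + h ≤ N), (1 : ℝ) / n ≤ 1 := by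
    have hc : (A.filter (fun n => ¬ n + h ≤ N)).card ≤ 1 := by
      rw [Finset.card_le_one]
      intro a ha b hb
      rw [mem_filter, hA, mem_filter, mem_Icc] at ha hb
      have h3 : a - (N + 1 - h) ≡ b - (N + 1 - h) [MOD h] := by
        apply Nat.ModEq.add_right_cancel' (N + 1 - h)
        rw [Nat.sub_add_cancel (by omega), Nat.sub_add_cancel (by omega)]
        exact ha.1.2.2.trans hb.1.2.2.symm
      have h4 : (a - (N + 1 - h)) % h = (b - (N + 1 - h)) % h := h3
      rw [Nat.mod_eq_of_lt (by omega), Nat.mod_eq_of_lt (by omega)] at h4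
      omega
    calc _ ≤ ∑ n ∈ A.filter (fun n => ¬ n + h ≤ N), (1 : ℝ) := by
          apply Finset.sum_le_sum
          intro n hn
          rw [mem_filter, hA, mem_filter, mem_Icc] at hn
          have : (1 : ℝ) ≤ n := by exact_mod_cast hn.1.1.1
          rw [div_le_one (by linarith)]
          exact this
      _ = ((A.filter (fun n => ¬ n + h ≤ N)).card : ℝ) := by simp
      _ ≤ 1 := by exact_mod_cast hc
  have hsplit : ∑ n ∈ A, (1 : ℝ) / n =
      ∑ n ∈ B, (1 : ℝ) / n + ∑ n ∈ A.filter (fun n => ¬ n + h ≤ N), (1 : ℝ) / n := by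
    rw [hB, Finset.sum_filter_add_sum_filter_not]
  rw [hsplit, mul_add]
  nlinarith

end Pool.Agent.H27.T2
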