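import Pool.Agent.H27.T2.Window
import Pool.Agent.H27.MR.Key

/-!
# Sign identity and rare zeros (module FE of the project T2)
-/

set_option autoImplicit false

open Finset Filter

namespace Pool.Agent.H27.T2

open Pool.Agent.H24.MR (lam FinAddInv)
open Pool.Agent.H24.T2 (Fr rel)

lemma lam_sq (n : ℕ) : lam n ^ 2 = 1 := by
  unfold lam
  rw [← pow_mul, mul_comm, pow_mul]
  simp

lemma lam_prime_mul {p x : ℕ} (hp : p.Prime) (hx : x ≠ 0) : lam (p * x) = -lam x := by
  unfold lam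
  rw [ArithmeticFunction.cardFactors_mul hp.ne_zero hx,
    ArithmeticFunction.cardFactors_apply_prime hp, pow_add, pow_one]
  ring

variable {r : ℕ} (α : Fin r → ℤ) (ε : Fin r → ℕ)

/-- the nonzero values are products of values of the Liouville function -/
lemma Fr_eq_prod (m : ℕ) (hF : Fr α ε m ≠ 0) (hε : ∀ i, 1 ≤ ε i) :
    Fr α ε m = ∏ i ∈ univ.filter (fun i => Odd (ε i)), lam ((m : ℤ) + α i).toNat := by
  rw [Finset.prod_filter]
  unfold Fr at hF ⊢
  apply Finset.prod_congr rfl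
  intro i _
  have h1 : ((ArithmeticFunction.moebius (((m : ℤ) + α i).toNat) : ℤ) : ℝ) ^ ε i ≠ 0 :=
    fun h => hF (Finset.prod_eq_zero (mem_univ i) h)
  have h2 : ArithmeticFunction.moebius (((m : ℤ) + α i).toNat) ≠ 0 := by
    intro h
    apply h1
    rw [h]
    have := hε i
    simp
    omega
  have h3 : Squarefree (((m : ℤ) + α i).toNat) := by
    by_contra hs
    exact h2 (ArithmeticFunction.moebius_eq_zero_of_not_squarefree hs)
  have h4 : ((ArithmeticFunction.moebius (((m : ℤ) + α i).toNat) : ℤ) : ℝ) =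
      lam (((m : ℤ) + α i).toNat) := by
    rw [ArithmeticFunction.moebius_apply_of_squarefree h3]
    unfold lam
    push_cast
    rfl
  rw [h4]
  split_ifs with ho
  · obtain ⟨j, hj⟩ := ho
    rw [hj, pow_add, pow_mul, lam_sq]
    simp
  · obtain ⟨j, hj⟩ := Nat.not_odd_iff_even.1 ho
    rw [hj, ← two_mul, pow_mul, lam_sq, one_pow]

open Classical in
/-- the zeros in a good class are rare -/
lemma card_zero_le (W w c : ℕ) (hW : 0 < W) (hw : 0 < w)
    (hWp : ∀ p : ℕ, p.Prime → p ∣ W → p ≤ w) (hsqW : ∀ p : ℕ, p.Prime → p ≤ w → p ^ 2 ∣ W)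
    (hc : ∀ i, ∀ p : ℕ, p.Prime → p ≤ w → ¬ ((p : ℤ) ^ 2 ∣ (c : ℤ) + α i)) :
    ∃ C₁ : ℝ, ∀ n : ℕ,
      (((range n).filter (fun m => m ∈ {m : ℕ | m ≡ c [MOD W] ∧ Fr α ε m = 0})).card : ℝ) ≤
        (r / (w * W) : ℝ) * n + C₁ + r * Real.sqrt n := by
  obtain ⟨C, hC⟩ : ∃ C : ℕ, ∀ i, |α i| ≤ C := by
    refine ⟨∑ i, (α i).natAbs, fun i => ?_⟩
    have := Finset.single_le_sum (f := fun i => (α i).natAbs) (fun _ _ => Nat.zero_le _)
      (mem_univ i)
    rw [Int.abs_eq_natAbs]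
    exact Int.ofNat_le.2 this
  refine ⟨(C + 1 : ℕ) + r * Real.sqrt C, ?_⟩
  intro n
  -- decomposition
  set T : Fin r → Finset ℕ := fun i => (range n).filter (fun m => m ≡ c [MOD W] ∧
    0 < (m : ℤ) + α i ∧ ∃ p : ℕ, p.Prime ∧ w < p ∧ (p : ℤ) ^ 2 ∣ (m : ℤ) + α i) with hT
  have hsub : (range n).filter (fun m => m ∈ {m : ℕ | m ≡ c [MOD W] ∧ Fr α ε m = 0}) ⊆
      range (C + 1) ∪ univ.biUnion T := by
    intro m hm
    rw [mem_filter, mem_range] at hm
    obtain ⟨hmn, hmc, hF⟩ := hm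
    rw [mem_union]
    by_cases hmC : m < C + 1
    · exact Or.inl (mem_range.2 hmC)
    right
    rw [mem_biUnion]
    unfold Fr at hF
    rw [Finset.prod_eq_zero_iff] at hF
    obtain ⟨i, _, hi⟩ := hF
    have h1 : ((ArithmeticFunction.moebius (((m : ℤ) + α i).toNat) : ℤ) : ℝ) = 0 := by
      by_contra hne
      exact pow_ne_zero _ hne hi
    have h2 : ArithmeticFunction.moebius (((m : ℤ) + α i).toNat) = 0 := by exact_mod_cast h1
    have hpos : 0 < (m : ℤ) + α i := by
      have h3 := hC i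
      have h4 := neg_abs_le (α i)
      omega
    have h5 : ¬ Squarefree (((m : ℤ) + α i).toNat) := by
      intro hs
      exact (ArithmeticFunction.moebius_ne_zero_iff_squarefree.2 hs) h2
    have h6 : ((m : ℤ) + α i).toNat ≠ 0 := by omega
    have h7 : ∃ p : ℕ, p.Prime ∧ p * p ∣ ((m : ℤ) + α i).toNat := by
      by_contra hcon
      push Not at hcon
      exact h5 ((Nat.squarefree_iff_prime_squarefree).2 fun p hp => hcon p hp)
    obtain ⟨p, hp, hpd⟩ := h7
    have h8 : (p : ℤ) ^ 2 ∣ (m : ℤ) + α i := by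
      have h9 : ((p * p : ℕ) : ℤ) ∣ ((((m : ℤ) + α i).toNat : ℕ) : ℤ) := by exact_mod_cast hpd
      rw [Int.toNat_of_nonneg hpos.le] at h9
      push_cast at h9
      rwa [pow_two]
    refine ⟨i, mem_univ i, ?_⟩
    rw [hT]
    simp only
    rw [mem_filter, mem_range]
    refine ⟨hmn, hmc, hpos, p, hp, ?_, h8⟩
    by_contra hpw
    rw [not_lt] at hpw
    apply hc i p hp hpw
    have h10 : ((p : ℤ)) ^ 2 ∣ (W : ℤ) := by exact_mod_cast hsqW p hp hpw
    have h11 : (W : ℤ) ∣ (c : ℤ) - m := by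
      have := (Nat.modEq_iff_dvd).1 hmc
      exact this
    have h12 : (c : ℤ) + α i = ((c : ℤ) - m) + ((m : ℤ) + α i) := by ring
    rw [h12]
    exact dvd_add (h10.trans h11) h8
  have hcard1 : (((range n).filter
      (fun m => m ∈ {m : ℕ | m ≡ c [MOD W] ∧ Fr α ε m = 0})).card : ℝ) ≤
      (C + 1 : ℕ) + ∑ i, ((T i).card : ℝ) := by
    have h1 := (Finset.card_le_card hsub).trans (Finset.card_union_le _ _)
    have h2 : (univ.biUnion T).card ≤ ∑ i, (T i).card := Finset.card_biUnion_le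
    rw [card_range] at h1
    exact_mod_cast h1.trans (Nat.add_le_add_left h2 _)
  have hWw : (W.primeFactors.filter (fun p => w < p)) = ∅ := by
    rw [Finset.filter_eq_empty_iff]
    intro p hp
    rw [not_lt]
    exact hWp p (Nat.prime_of_mem_primeFactors hp) (Nat.dvd_of_mem_primeFactors hp)
  have hTi : ∀ i, ((T i).card : ℝ) ≤ n / W * (1 / w) + (Real.sqrt n + Real.sqrt C) := by
    intro i
    have h1 := Pool.Agent.H27.MR.card_nonsq_le W w hW hw
      (fun p hp hwp hd => by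
        have := hWp p hp ((dvd_pow_self p two_ne_zero).trans hd)
        omega) (α i) c n C (hC i) (T i) (by
        intro u hu
        rw [hT] at hu
        simp only at hu
        rw [mem_filter, mem_range] at hu
        exact hu)
    rw [hWw, Finset.sum_empty, add_zero] at h1
    have h2 : ((Nat.sqrt (n + C) : ℕ) : ℝ) ≤ Real.sqrt n + Real.sqrt C := by
      have h3 : ((Nat.sqrt (n + C) : ℕ) : ℝ) ≤ Real.sqrt ((n + C : ℕ) : ℝ) := Real.nat_sqrt_le_real_sqrt
      have h4 : Real.sqrt ((n + C : ℕ) : ℝ) ≤ Real.sqrt n + Real.sqrt C := by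
        push_cast
        have e1 := Real.sqrt_nonneg (n : ℝ)
        have e2 := Real.sqrt_nonneg (C : ℝ)
        rw [Real.sqrt_le_left (by linarith), add_sq, Real.sq_sqrt (by positivity),
          Real.sq_sqrt (by positivity)]
        nlinarith [mul_nonneg e1 e2]
      exact h3.trans h4
    linarith
  have hsum : ∑ i, ((T i).card : ℝ) ≤ r * (n / W * (1 / w) + (Real.sqrt n + Real.sqrt C)) := by
    refine (Finset.sum_le_sum fun i _ => hTi i).trans ?_
    rw [Finset.sum_const, nsmul_eq_mul, card_univ, Fintype.card_fin]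
  have h5 : (r : ℝ) * (n / W * (1 / w)) = r / (w * W) * n := by
    have hWR : (W : ℝ) ≠ 0 := by exact_mod_cast hW.ne'
    have hwR : (w : ℝ) ≠ 0 := by exact_mod_cast hw.ne'
    field_simp
  rw [mul_add, h5, mul_add] at hsum
  linarith

/-- the modulus -/
lemma exists_modulus (q w : ℕ) (hq : 0 < q) (hqw : q ≤ w) (hw : 2 ≤ w) :
    ∃ W : ℕ, 0 < W ∧ Even W ∧ q ∣ W ∧ (∀ p : ℕ, p.Prime → p ∣ W → p ≤ w) ∧
      (∀ p : ℕ, p.Prime → p ≤ w → p ^ 2 ∣ W) := by
  refine ⟨2 * q * ∏ p ∈ (range (w + 1)).filter Nat.Prime, p ^ 2, ?_, ?_, ?_, ?_, ?_⟩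
  · apply Nat.mul_pos (by omega)
    apply Finset.prod_pos
    intro p hp
    rw [mem_filter] at hp
    exact pow_pos hp.2.pos 2
  · rw [mul_assoc]
    exact even_two_mul _
  · exact Dvd.dvd.mul_right (Dvd.intro_left _ rfl) _
  · intro p hp hd
    rcases (hp.dvd_mul).1 hd with h1 | h1
    · rcases (hp.dvd_mul).1 h1 with h2 | h2
      · exact (Nat.le_of_dvd (by norm_num) h2).trans hw
      · exact (Nat.le_of_dvd hq h2).trans hqw
    · obtain ⟨p', hp', hd'⟩ := (hp.prime.dvd_finsetProd_iff _).1 h1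
      rw [mem_filter, mem_range] at hp'
      have := hp.dvd_of_dvd_pow hd'
      rw [Nat.prime_dvd_prime_iff_eq hp hp'.2] at this
      omega
  · intro p hp hpw
    apply Dvd.dvd.mul_left
    apply Finset.dvd_prod_of_mem
    rw [mem_filter, mem_range]
    exact ⟨by omega, hp⟩

/-! ### finitely additive measures -/

lemma fai_mono {μ : Set ℕ → ℝ} (h : FinAddInv μ) {A B : Set ℕ} (hAB : A ⊆ B) : μ A ≤ μ B := by
  have h1 := h.add A (B \ A) Set.disjoint_sdiff_right
  rw [Set.union_sdiff_cancel hAB] at h1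
  have := h.nonneg (B \ A)
  linarith

lemma fai_union {μ : Set ℕ → ℝ} (h : FinAddInv μ) (A B : Set ℕ) : μ (A ∪ B) ≤ μ A + μ B := by
  have h1 := h.add A (B \ A) Set.disjoint_sdiff_right
  rw [Set.union_sdiff_self] at h1
  have := fai_mono h (Set.sdiff_subset : B \ A ⊆ B)
  linarith

lemma fai_shift {μ : Set ℕ → ℝ} (h : FinAddInv μ) (t : ℕ) (A : Set ℕ) :
    μ {n | n + t ∈ A} = μ A := by
  induction t generalizing A with
  | zero => simp
  | succ t ih =>
    have h1 : {n | n + (t + 1) ∈ A} = {n | n + 1 ∈ {m | m + t ∈ A}} := by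
      ext n
      simp only [Set.mem_ofPred_eq]
      rw [show n + 1 + t = n + (t + 1) by ring]
    rw [h1, h.shift, ih]

end Pool.Agent.H27.T2
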