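import Pool.Agent.H27.T2.Glue
import Pool.Agent.H27.T2.Sign

/-!
# Module FE of the project T2: the front end
-/

set_option autoImplicit false

open Finset Filter

namespace Pool.Agent.H27.T2

open Pool.Agent.H24.MR (lam FinAddInv)
open Pool.Agent.H24.T2

lemma filter_aux (s : Finset ℕ) (A : Set ℕ) (p : ℕ → Prop)
    (d1 : DecidablePred (fun m => m ∈ A)) (d2 : DecidablePred p) (h : ∀ m, m ∈ A ↔ p m) :
    @Finset.filter ℕ (fun m => m ∈ A) d1 s = @Finset.filter ℕ p d2 s := by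
  ext m
  rw [mem_filter, mem_filter, h]

/-- the local contradiction with explicit constants -/
def LocP (k : ℕ) (δ η : ℝ) : Prop :=
  ∀ (Q c : ℕ) (β : Fin k → ℕ), 0 < Q → Even Q → Function.Injective β →
    ∀ μ : Set ℕ → ℝ, FinAddInv μ → MRprop μ →
    ∀ σ : ℕ → ℕ → ℤ, (∀ p y, σ p y = 0 ∨ σ p y = 1 ∨ σ p y = -1) →
      (∀ p, p.Prime → p ≡ 1 [MOD Q] → μ {y | σ p y ≠ σ p (y + 1)} = 0) →
      (∀ p, p.Prime → p ≡ 1 [MOD Q] → δ ≤ μ {y | σ p y ≠ 0}) →
      (∀ p, p.Prime → p ≡ 1 [MOD Q] →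
        μ {y | y ≡ c [MOD Q] ∧ p ∣ y ∧ σ p y ≠ 0 ∧ rel β lam p y ≠ (σ p y : ℝ)} ≤ η / (p * Q)) →
      False

lemma LocP.mono {k : ℕ} {δ η η' : ℝ} (h : LocP k δ η) (hη : η' ≤ η) : LocP k δ η' := by
  intro Q c β hQ hQe hβ μ hμ hMR σ hσ h1 h2 h3
  refine h Q c β hQ hQe hβ μ hμ hMR σ hσ h1 h2 ?_
  intro p hp hpQ
  refine (h3 p hp hpQ).trans ?_
  have h4 : (0 : ℝ) ≤ (p : ℝ) * Q := by positivity
  exact div_le_div_of_nonneg_right hη h4

lemma exists_eta (hLOC : StatementLOC) (δ : ℝ) (hδ : 0 < δ) (r : ℕ) :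
    ∃ η : ℝ, 0 < η ∧ ∀ k, 0 < k → k ≤ r → LocP k δ η := by
  induction r with
  | zero => exact ⟨1, one_pos, fun k h1 h2 => by omega⟩
  | succ r ih =>
    obtain ⟨η₁, h1, h2⟩ := ih
    obtain ⟨η₂, h3, h4⟩ := hLOC (r + 1) δ (Nat.succ_pos r) hδ
    refine ⟨min η₁ η₂, lt_min h1 h3, ?_⟩
    intro k hk hkr
    by_cases hkr' : k ≤ r
    · exact (h2 k hk hkr').mono (min_le_left _ _)
    · have : k = r + 1 := by omega
      subst this
      exact LocP.mono (η := η₂) h4 (min_le_right _ _)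

/-- the contradiction from the glued sign function -/
lemma final {r : ℕ} (α : Fin r → ℤ) (ε : Fin r → ℕ) (hα : Function.Injective α)
    (hε : ∀ i, 1 ≤ ε i) (hodd : ∃ i, Odd (ε i)) {δ η : ℝ} (hη : 0 < η)
    (hloc : ∀ k, 0 < k → k ≤ r → LocP k δ η)
    {W w c : ℕ} (hW : 0 < W) (hWe : Even W) (hw : 0 < w) (hrw : (r : ℝ) / w ≤ η / 2)
    (hWp : ∀ p : ℕ, p.Prime → p ∣ W → p ≤ w) (hsqW : ∀ p : ℕ, p.Prime → p ≤ w → p ^ 2 ∣ W)
    (hc : ∀ i, ∀ p : ℕ, p.Prime → p ≤ w → ¬ ((p : ℤ) ^ 2 ∣ (c : ℤ) + α i))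
    (hLD : StatementLD) (N : ℕ → ℕ) (τ : ℕ → ℤ) (hN : Tendsto N atTop atTop)
    (hτ : ∀ m, τ m = 0 ∨ τ m = 1 ∨ τ m = -1)
    (h1 : ∀ x : ℝ, 0 < x → ∀ᶠ j in atTop,
        ∑ m ∈ (Icc 1 (N j)).filter (fun m => τ m ≠ τ (m + 1)), (1 : ℝ) / m ≤
          x * Real.log (N j))
    (h2 : ∀ᶠ j in atTop, δ * Real.log (N j) ≤
        ∑ m ∈ (Icc 1 (N j)).filter (fun m => τ m ≠ 0), (1 : ℝ) / m)
    (h3 : ∀ᶠ j in atTop,
        ∑ m ∈ (Icc 1 (N j)).filter (fun m => m ≡ c [MOD W] ∧ τ m ≠ 0 ∧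
          Fr α ε m = -(τ m : ℝ)), (1 : ℝ) / m ≤ η / (2 * W) * Real.log (N j)) : False := by
  classical
  have hWR : (0 : ℝ) < W := by exact_mod_cast hW
  have hU : (hyperfilter ℕ : Filter ℕ) ≤ atTop := Nat.hyperfilter_le_atTop
  obtain ⟨hF, hmul, hdiv, hup, hlow, hcard, hMR⟩ := hLD (hyperfilter ℕ) N (hN.mono_left hU)
  set μ := ldens (hyperfilter ℕ) N with hμ
  -- the shift
  obtain ⟨T, hT⟩ : ∃ T : ℕ, ∀ i, 0 < α i + (W * T : ℕ) := by
    refine ⟨∑ i, (α i).natAbs + 1, fun i => ?_⟩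
    have e1 := Finset.single_le_sum (f := fun i => (α i).natAbs) (fun _ _ => Nat.zero_le _)
      (mem_univ i)
    have e2 : (α i).natAbs < W * (∑ i, (α i).natAbs + 1) := by
      calc (α i).natAbs < ∑ i, (α i).natAbs + 1 := Nat.lt_succ_of_le e1
        _ ≤ W * (∑ i, (α i).natAbs + 1) := Nat.le_mul_of_pos_left _ hW
    omega
  obtain ⟨t, ht⟩ : ∃ t : ℕ, t = W * T := ⟨_, rfl⟩
  rw [← ht] at hT
  have htW : ∀ u : ℕ, u + t ≡ u [MOD W] := by
    intro u
    rw [ht, mul_comm]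
    exact Nat.add_mul_modulus_modEq_iff.2 rfl
  -- the odd indices
  obtain ⟨S, hS⟩ : ∃ S : Finset (Fin r), S = univ.filter (fun i => Odd (ε i)) := ⟨_, rfl⟩
  obtain ⟨k, hk⟩ : ∃ k : ℕ, k = S.card := ⟨_, rfl⟩
  have hk0 : 0 < k := by
    rw [hk, Finset.card_pos]
    obtain ⟨i, hi⟩ := hodd
    exact ⟨i, by rw [hS, mem_filter]; exact ⟨mem_univ i, hi⟩⟩
  have hkr : k ≤ r := by
    rw [hk]
    have := Finset.card_le_univ S
    rwa [Fintype.card_fin] at this
  obtain ⟨e⟩ : Nonempty (Fin k ≃ S) := by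
    rw [hk]
    exact ⟨S.equivFin.symm⟩
  set β : Fin k → ℕ := fun j => (α (e j) + t).toNat with hβ
  have hβZ : ∀ j, ((β j : ℕ) : ℤ) = α (e j) + t := by
    intro j
    rw [hβ]
    exact Int.toNat_of_nonneg (hT _).le
  have hβinj : Function.Injective β := by
    intro a b hab
    have e1 := hβZ a
    have e2 := hβZ b
    rw [hab] at e1
    have e3 : α (e a) = α (e b) := by linarith
    exact e.injective (Subtype.ext (hα e3))
  -- the product over the odd indices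
  have hprod : ∀ u : ℕ, Fr α ε (u + t) ≠ 0 → ∏ j, lam (u + β j) = Fr α ε (u + t) := by
    intro u hu
    rw [Fr_eq_prod α ε (u + t) hu hε, ← hS]
    rw [← Finset.prod_coe_sort S (fun i => lam (((u + t : ℕ) : ℤ) + α i).toNat)]
    rw [← e.prod_comp]
    apply Finset.prod_congr rfl
    intro j _
    congr 1
    have e1 := hβZ j
    have e2 := hT (e j)
    push_cast
    omega
  have hrel : ∀ p u : ℕ, p.Prime → rel β lam p (p * u) = (-1) ^ k * ∏ j, lam (u + β j) := by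
    intro p u hp
    unfold rel
    have e1 : ∀ j : Fin k, lam (p * u + p * β j) = (-1) * lam (u + β j) := by
      intro j
      rw [← mul_add, lam_prime_mul hp, neg_one_mul]
      have e1 := hβZ j
      have e2 := hT (e j)
      omega
    rw [Finset.prod_congr rfl fun j _ => e1 j, Finset.prod_mul_distrib, Finset.prod_const,
      card_univ, Fintype.card_fin]
  -- measures
  have hm1 : μ {m | τ m ≠ τ (m + 1)} = 0 := by
    apply le_antisymm _ (hF.nonneg _)
    apply le_of_forall_pos_le_add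
    intro x hx
    rw [zero_add]
    apply hup
    refine (h1 x hx).filter_mono hU |>.mono fun j hj => ?_
    refine le_trans (le_of_eq ?_) hj
    apply Finset.sum_congr _ fun _ _ => rfl
    exact filter_aux _ _ _ _ _ fun _ => Iff.rfl
  have hm2 : δ ≤ μ {m | τ m ≠ 0} := by
    apply hlow
    refine h2.filter_mono hU |>.mono fun j hj => ?_
    refine le_trans hj (le_of_eq ?_)
    apply Finset.sum_congr _ fun _ _ => rfl
    exact filter_aux _ _ _ _ _ fun _ => Iff.rfl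
  have hm3 : μ {m | m ≡ c [MOD W] ∧ τ m ≠ 0 ∧ Fr α ε m = -(τ m : ℝ)} ≤ η / (2 * W) := by
    apply hup
    refine h3.filter_mono hU |>.mono fun j hj => ?_
    refine le_trans (le_of_eq ?_) hj
    apply Finset.sum_congr _ fun _ _ => rfl
    exact filter_aux _ _ _ _ _ fun _ => Iff.rfl
  have hm4 : μ {m | m ≡ c [MOD W] ∧ Fr α ε m = 0} ≤ η / (2 * W) := by
    obtain ⟨C₁, hC₁⟩ := card_zero_le α ε W w c hW hw hWp hsqW hc
    have e1 := hcard {m | m ≡ c [MOD W] ∧ Fr α ε m = 0} (r / (w * W) : ℝ) C₁ r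
      (Nat.cast_nonneg r) (by
        intro n
        refine le_trans (le_of_eq ?_) (hC₁ n)
        congr 2
        exact filter_aux _ _ _ _ _ fun _ => Iff.rfl)
    refine e1.trans ?_
    have e2 : (r : ℝ) / (w * W) = (r / w) / W := by
      rw [div_div]
    have e3 : η / (2 * W) = (η / 2) / W := by
      rw [div_div]
    rw [e2, e3]
    exact div_le_div_of_nonneg_right hrw hWR.le
  -- the exceptional set
  set A : Set ℕ := {u | u ≡ c [MOD W] ∧ τ (u + t) ≠ 0 ∧ ∏ j, lam (u + β j) ≠ (τ (u + t) : ℝ)}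
    with hA
  have hAm : μ A ≤ η / W := by
    have hsub : A ⊆ {u | u + t ∈ {m | m ≡ c [MOD W] ∧ τ m ≠ 0 ∧ Fr α ε m = -(τ m : ℝ)}} ∪
        {u | u + t ∈ {m | m ≡ c [MOD W] ∧ Fr α ε m = 0}} := by
      intro u hu
      obtain ⟨hu1, hu2, hu3⟩ := hu
      have hu4 : u + t ≡ c [MOD W] := (htW u).trans hu1
      by_cases hz : Fr α ε (u + t) = 0
      · exact Or.inr ⟨hu4, hz⟩
      · left
        refine ⟨hu4, hu2, ?_⟩
        rw [hprod u hz] at hu3
        rcases Fr_val α ε (u + t) with h5 | h5 | h5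
        · exact absurd h5 hz
        · rcases hτ (u + t) with h6 | h6 | h6
          · exact absurd h6 hu2
          · rw [h5, h6] at hu3
            simp at hu3
          · rw [h5, h6]
            simp
        · rcases hτ (u + t) with h6 | h6 | h6
          · exact absurd h6 hu2
          · rw [h5, h6]
            simp
          · rw [h5, h6] at hu3
            simp at hu3
    refine (fai_mono hF hsub).trans ((fai_union hF _ _).trans ?_)
    rw [fai_shift hF, fai_shift hF]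
    have e1 : η / (2 * W) + η / (2 * W) = η / W := by
      field_simp
      norm_num
    linarith
  refine hloc k hk0 hkr W c β hW hWe hβinj μ hF hMR
    (fun p y => (-1) ^ k * τ (y / p + t)) ?_ ?_ ?_ ?_
  · intro p y
    rcases hτ (y / p + t) with h6 | h6 | h6 <;> rcases neg_one_pow_eq_or ℤ k with h7 | h7 <;>
      simp [h6, h7]
  · intro p hp _
    apply le_antisymm _ (hF.nonneg _)
    have hsub : {y | (-1 : ℤ) ^ k * τ (y / p + t) ≠ (-1) ^ k * τ ((y + 1) / p + t)} ⊆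
        {y | y / p ∈ {u | u + t ∈ {m | τ m ≠ τ (m + 1)}}} := by
      intro y hy
      have hy' : τ (y / p + t) ≠ τ ((y + 1) / p + t) := by
        intro heq
        apply hy
        rw [heq]
      show τ (y / p + t) ≠ τ (y / p + t + 1)
      rw [Nat.succ_div] at hy'
      split_ifs at hy' with hd
      · rwa [show y / p + 1 + t = y / p + t + 1 by ring] at hy'
      · rw [add_zero] at hy'
        exact absurd rfl hy'
    refine (fai_mono hF hsub).trans ?_
    rw [hdiv _ _ hp.pos, fai_shift hF, hm1]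
  · intro p hp _
    have heq : {y | (-1 : ℤ) ^ k * τ (y / p + t) ≠ 0} =
        {y | y / p ∈ {u | u + t ∈ {m | τ m ≠ 0}}} := by
      ext y
      show (-1 : ℤ) ^ k * τ (y / p + t) ≠ 0 ↔ τ (y / p + t) ≠ 0
      rcases neg_one_pow_eq_or ℤ k with h7 | h7 <;> rw [h7] <;> simp
    rw [heq, hdiv _ _ hp.pos, fai_shift hF]
    exact hm2
  · intro p hp hpW
    have hsub : {y | y ≡ c [MOD W] ∧ p ∣ y ∧ (-1 : ℤ) ^ k * τ (y / p + t) ≠ 0 ∧
        rel β lam p y ≠ (((-1 : ℤ) ^ k * τ (y / p + t) : ℤ) : ℝ)} ⊆ {y | p ∣ y ∧ y / p ∈ A} := by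
      intro y hy
      obtain ⟨hy1, ⟨u, rfl⟩, hy3, hy4⟩ := hy
      refine ⟨dvd_mul_right p u, ?_⟩
      rw [Nat.mul_div_cancel_left u hp.pos] at hy3 hy4 ⊢
      refine ⟨?_, ?_, ?_⟩
      · have h7 : p * u ≡ 1 * u [MOD W] := Nat.ModEq.mul_right u hpW
        rw [one_mul] at h7
        exact h7.symm.trans hy1
      · intro h0
        apply hy3
        rw [h0, mul_zero]
      · intro h0
        apply hy4
        rw [hrel p u hp, h0]
        push_cast
        ring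
    refine (fai_mono hF hsub).trans ?_
    rw [hmul _ _ hp.pos]
    have hpR : (0 : ℝ) < p := by exact_mod_cast hp.pos
    have e1 : η / ((p : ℝ) * W) = η / W / p := by
      rw [div_div, mul_comm]
    rw [e1]
    exact div_le_div_of_nonneg_right hAm hpR.le

/-- **Module FE.** -/
theorem fe : StatementFE := by
  classical
  intro hLOC hLD r δ hδ
  obtain ⟨η, hη, hloc⟩ := exists_eta hLOC (δ / 2) (by linarith) r
  refine ⟨η / 8, by linarith, ?_⟩
  intro α ε q n₀ hα hε hodd hq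
  by_contra hcon
  push Not at hcon
  -- parameters
  obtain ⟨w, hw2, hqw, hrw⟩ : ∃ w : ℕ, 2 ≤ w ∧ q ≤ w ∧ (r : ℝ) / w ≤ η / 2 := by
    obtain ⟨w₀, hw₀⟩ := exists_nat_gt ((r : ℝ) / (η / 2))
    refine ⟨max w₀ (max 2 q), (le_max_left _ _).trans (le_max_right _ _),
      (le_max_right _ _).trans (le_max_right _ _), ?_⟩
    have h1 : (w₀ : ℝ) ≤ ((max w₀ (max 2 q) : ℕ) : ℝ) := by exact_mod_cast le_max_left _ _
    have h2 : (2 : ℝ) ≤ ((max w₀ (max 2 q) : ℕ) : ℝ) := by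
      exact_mod_cast (le_max_left 2 q).trans (le_max_right _ _)
    rw [div_le_iff₀ (by linarith)]
    rw [div_lt_iff₀ (by linarith)] at hw₀
    nlinarith
  obtain ⟨W, hW, hWe, hqW, hWp, hsqW⟩ := exists_modulus q w hq hqw hw2
  have hWR : (0 : ℝ) < W := by exact_mod_cast hW
  obtain ⟨c, hcg, hc⟩ := exists_class α ε hε (κ := η / 8) (n₀ := n₀) hδ (by linarith) hW hqW
    hsqW (by
      intro h₀
      obtain ⟨h, hh, hN⟩ := hcon h₀
      refine ⟨h, hh, fun N₀ => ?_⟩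
      obtain ⟨N, hNN, hb⟩ := hN N₀
      refine ⟨N, hNN, lt_of_lt_of_eq hb ?_⟩
      apply Finset.sum_congr _ fun _ _ => rfl
      ext n
      rw [mem_filter, mem_filter]
      rfl)
  obtain ⟨N, τ, hN, hτ, h1, h2, h3⟩ := exists_tau α ε hc
  unfold good at hcg
  rw [mem_filter] at hcg
  refine final α ε hα hε hodd hη hloc hW hWe (by omega) hrw hWp hsqW hcg.2.2 hLD N τ hN hτ h1
    (h2 (δ / 2) (by linarith)) (h3 (η / (2 * W)) ?_)
  rw [div_lt_div_iff₀ hWR (by positivity)]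
  nlinarith [mul_pos hη hWR]

end Pool.Agent.H27.T2
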