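import Pool.Agent.H27.T2.Select

/-!
# Gluing the levels (module FE of the project T2)
-/

set_option autoImplicit false

open Finset Filter

namespace Pool.Agent.H27.T2

open Pool.Agent.H24.T2 (Fr)

variable {r : ℕ} (α : Fin r → ℤ) (ε : Fin r → ℕ)

lemma cmp_sum (M N : ℕ) (p p' : ℕ → Prop) [DecidablePred p] [DecidablePred p']
    (h : ∀ m, M < m → m ≤ N → p m → p' m) :
    ∑ m ∈ (Icc 1 N).filter p, (1 : ℝ) / m ≤ M + ∑ m ∈ (Icc 1 N).filter p', (1 : ℝ) / m := by
  have h1 : (Icc 1 N).filter p ⊆ Icc 1 M ∪ (Icc 1 N).filter p' := by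
    intro m hm
    rw [mem_filter, mem_Icc] at hm
    rw [mem_union, mem_Icc, mem_filter, mem_Icc]
    by_cases hM : m ≤ M
    · exact Or.inl ⟨hm.1.1, hM⟩
    · exact Or.inr ⟨hm.1, h m (not_le.1 hM) hm.1.2 hm.2⟩
  have h2 : ∑ m ∈ (Icc 1 N).filter p, (1 : ℝ) / m ≤
      ∑ m ∈ Icc 1 M ∪ (Icc 1 N).filter p', (1 : ℝ) / m :=
    Finset.sum_le_sum_of_subset_of_nonneg h1 fun _ _ _ => by positivity
  have h3 : ∑ m ∈ Icc 1 M ∪ (Icc 1 N).filter p', (1 : ℝ) / m ≤
      ∑ m ∈ Icc 1 M, (1 : ℝ) / m + ∑ m ∈ (Icc 1 N).filter p', (1 : ℝ) / m := by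
    rw [← Finset.sum_union_inter]
    have : 0 ≤ ∑ m ∈ Icc 1 M ∩ (Icc 1 N).filter p', (1 : ℝ) / m :=
      Finset.sum_nonneg fun _ _ => by positivity
    linarith
  have h4 := sum_inv_le_self M
  linarith

open Classical in
/-- the glued sign function -/
lemma exists_tau {δ κ : ℝ} {q n₀ W c : ℕ}
    (hc : ∀ h₀ : ℕ, ∃ h : ℕ, h₀ ≤ h ∧ ∀ N₀ : ℕ, ∃ N : ℕ, N₀ ≤ N ∧
      ∃ o, Lev α ε δ κ q n₀ W c h N o) :
    ∃ (N : ℕ → ℕ) (τ : ℕ → ℤ), Tendsto N atTop atTop ∧ (∀ m, τ m = 0 ∨ τ m = 1 ∨ τ m = -1) ∧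
      (∀ x : ℝ, 0 < x → ∀ᶠ j in atTop,
        ∑ m ∈ (Icc 1 (N j)).filter (fun m => τ m ≠ τ (m + 1)), (1 : ℝ) / m ≤
          x * Real.log (N j)) ∧
      (∀ x : ℝ, x < δ → ∀ᶠ j in atTop, x * Real.log (N j) ≤
        ∑ m ∈ (Icc 1 (N j)).filter (fun m => τ m ≠ 0), (1 : ℝ) / m) ∧
      (∀ x : ℝ, 2 * κ / W < x → ∀ᶠ j in atTop,
        ∑ m ∈ (Icc 1 (N j)).filter (fun m => m ≡ c [MOD W] ∧ τ m ≠ 0 ∧
          Fr α ε m = -(τ m : ℝ)), (1 : ℝ) / m ≤ x * Real.log (N j)) := by
  have hlim : Tendsto (fun N : ℕ => Real.log N) atTop atTop :=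
    Real.tendsto_log_atTop.comp tendsto_natCast_atTop_atTop
  choose H hH hHN using fun j : ℕ => hc (j + 1)
  choose g hg hgL using hHN
  have hB : ∀ j M : ℕ, ∃ B : ℕ, M < B ∧ ∀ N : ℕ, B ≤ N →
      ((j : ℝ) + 1) * (M + H j + 10) ≤ Real.log N := by
    intro j M
    obtain ⟨B, hB⟩ := Filter.eventually_atTop.1
      (hlim.eventually_ge_atTop (((j : ℝ) + 1) * (M + H j + 10)))
    exact ⟨max B (M + 1), lt_of_lt_of_le (Nat.lt_succ_self M) (le_max_right _ _),
      fun N hN => hB N ((le_max_left _ _).trans hN)⟩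
  choose B hB1 hB2 using hB
  obtain ⟨NN, hNN0, hNNs⟩ : ∃ NN : ℕ → ℕ, NN 0 = g 0 (B 0 0) ∧
      ∀ j, NN (j + 1) = g (j + 1) (B (j + 1) (NN j)) :=
    ⟨fun j => Nat.rec (g 0 (B 0 0)) (fun j x => g (j + 1) (B (j + 1) x)) j, rfl, fun _ => rfl⟩
  obtain ⟨prev, hp0, hps⟩ : ∃ prev : ℕ → ℕ, prev 0 = 0 ∧ ∀ j, prev (j + 1) = NN j :=
    ⟨fun j => Nat.rec 0 (fun j _ => NN j) j, rfl, fun _ => rfl⟩
  have hNN : ∀ j, NN j = g j (B j (prev j)) := by
    intro j
    cases j with
    | zero => rw [hNN0, hp0]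
    | succ j => rw [hNNs, hps]
  have hprev : ∀ j, prev j < NN j := by
    intro j
    rw [hNN]
    exact (hB1 j (prev j)).trans_le (hg j _)
  have hlog : ∀ j : ℕ, ((j : ℝ) + 1) * (prev j + H j + 10) ≤ Real.log (NN j) := by
    intro j
    apply hB2 j (prev j)
    rw [hNN]
    exact hg j _
  have hmono : StrictMono NN := by
    apply strictMono_nat_of_lt_succ
    intro j
    have := hprev (j + 1)
    rwa [hps] at this
  have hO : ∀ j, ∃ o, Lev α ε δ κ q n₀ W c (H j) (NN j) o := by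
    intro j
    rw [hNN]
    exact hgL j _
  choose O hO using hO
  have hex : ∀ m : ℕ, ∃ j, m ≤ NN j := fun m => ⟨m, hmono.le_apply⟩
  obtain ⟨lvl, hlvl⟩ : ∃ lvl : ℕ → ℕ, ∀ j m, prev j < m → m ≤ NN j → lvl m = j := by
    refine ⟨fun m => Nat.find (hex m), ?_⟩
    intro j m h1 h2
    simp only
    rw [Nat.find_eq_iff]
    refine ⟨h2, ?_⟩
    intro i hi
    rw [not_le]
    refine lt_of_le_of_lt ?_ h1
    cases j with
    | zero => exact absurd hi (Nat.not_lt_zero _)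
    | succ j =>
      rw [hps]
      exact hmono.monotone (Nat.lt_succ_iff.1 hi)
  obtain ⟨τ, hτ⟩ : ∃ τ : ℕ → ℤ, ∀ m, τ m = loc α ε κ q n₀ (H (lvl m)) (O (lvl m)) m :=
    ⟨_, fun _ => rfl⟩
  have hτj : ∀ j m, prev j < m → m ≤ NN j → τ m = loc α ε κ q n₀ (H j) (O j) m := by
    intro j m h1 h2
    rw [hτ, hlvl j m h1 h2]
  have hj1 : ∀ j : ℕ, (0 : ℝ) < (j : ℝ) + 1 := fun j => by positivity
  have hHj : ∀ j : ℕ, (j : ℝ) + 1 ≤ H j := fun j => by exact_mod_cast hH j
  have hprevle : ∀ j : ℕ, (prev j : ℝ) + H j + 10 ≤ Real.log (NN j) / (j + 1) := by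
    intro j
    rw [le_div_iff₀ (hj1 j), mul_comm]
    exact hlog j
  have hlogpos : ∀ j, 0 < Real.log (NN j) := by
    intro j
    have h1 := hlog j
    have h2 : (0 : ℝ) < ((j : ℝ) + 1) * (prev j + H j + 10) := by positivity
    linarith
  have hsmall : ∀ y : ℝ, 0 < y → ∀ᶠ j : ℕ in atTop, 4 / ((j : ℝ) + 1) ≤ y := by
    intro y hy
    have : Tendsto (fun j : ℕ => 4 / ((j : ℝ) + 1)) atTop (nhds 0) := by
      have := (tendsto_one_div_add_atTop_nhds_zero_nat (𝕜 := ℝ)).const_mul 4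
      rw [mul_zero] at this
      refine this.congr fun j => ?_
      ring
    exact (this.eventually (gt_mem_nhds hy)).mono fun _ h => le_of_lt h
  refine ⟨NN, τ, hmono.tendsto_atTop, ?_, ?_, ?_, ?_⟩
  · intro m
    rw [hτ]
    exact loc_val α ε κ q n₀ _ _ m
  · intro x hx
    filter_upwards [hsmall x hx] with j hj
    have hoj := (hO j).1
    have hHpos : 0 < H j := by omega
    have h1 := cmp_sum (prev j) (NN j) (fun m => τ m ≠ τ (m + 1))
      (fun m => m ≡ O j [MOD H j] ∨ m = NN j) (by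
        intro m hm1 hm2 hne
        by_cases hm3 : m = NN j
        · exact Or.inr hm3
        · left
          rw [hτj j m hm1 hm2, hτj j (m + 1) (by omega) (by omega)] at hne
          exact loc_change α ε hoj (by omega) hne)
    have h2 : ∑ m ∈ (Icc 1 (NN j)).filter (fun m => m ≡ O j [MOD H j] ∨ m = NN j),
        (1 : ℝ) / m ≤ 1 + (1 + (1 + Real.log (NN j)) / H j) := by
      rw [Finset.filter_or]
      have h3 : ∑ m ∈ (Icc 1 (NN j)).filter (fun m => m ≡ O j [MOD H j]) ∪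
          (Icc 1 (NN j)).filter (fun m => m = NN j), (1 : ℝ) / m ≤
          ∑ m ∈ (Icc 1 (NN j)).filter (fun m => m ≡ O j [MOD H j]), (1 : ℝ) / m +
          ∑ m ∈ (Icc 1 (NN j)).filter (fun m => m = NN j), (1 : ℝ) / m := by
        rw [← Finset.sum_union_inter]
        have : 0 ≤ ∑ m ∈ (Icc 1 (NN j)).filter (fun m => m ≡ O j [MOD H j]) ∩
          (Icc 1 (NN j)).filter (fun m => m = NN j), (1 : ℝ) / m :=
          Finset.sum_nonneg fun _ _ => by positivity
        linarith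
      have h4 := sum_inv_modEq_le (NN j) (H j) (O j) hHpos
      have h5 : ∑ m ∈ (Icc 1 (NN j)).filter (fun m => m = NN j), (1 : ℝ) / m ≤ 1 := by
        have : (Icc 1 (NN j)).filter (fun m => m = NN j) ⊆ {NN j} := by
          intro m hm
          rw [mem_filter] at hm
          rw [mem_singleton]
          exact hm.2
        refine (Finset.sum_le_sum_of_subset_of_nonneg this fun _ _ _ => by positivity).trans ?_
        rw [sum_singleton]
        have : (1 : ℝ) ≤ NN j := by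
          have := hprev j
          exact_mod_cast (show 1 ≤ NN j by omega)
        rw [div_le_one (by linarith)]
        exact this
      linarith
    have h6 : (1 + Real.log (NN j)) / H j ≤ 1 + Real.log (NN j) / (j + 1) := by
      have h7 : (1 + Real.log (NN j)) / H j ≤ (1 + Real.log (NN j)) / (j + 1) :=
        div_le_div_of_nonneg_left (by linarith [hlogpos j]) (hj1 j) (hHj j)
      have h8 : (1 + Real.log (NN j)) / ((j : ℝ) + 1) = 1 / (j + 1) +
          Real.log (NN j) / (j + 1) := add_div _ _ _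
      have h9 : (1 : ℝ) / ((j : ℝ) + 1) ≤ 1 := by
        rw [div_le_one (hj1 j)]
        have : (0 : ℝ) ≤ j := by positivity
        linarith
      linarith
    have h10 := hprevle j
    have h11 : 2 * (Real.log (NN j) / (j + 1)) ≤ x * Real.log (NN j) := by
      have : 2 * (Real.log (NN j) / (j + 1)) ≤ 4 / ((j : ℝ) + 1) * Real.log (NN j) := by
        have h12 : 4 / ((j : ℝ) + 1) * Real.log (NN j) = 4 * (Real.log (NN j) / (j + 1)) := by
          ring
        rw [h12]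
        have := div_pos (hlogpos j) (hj1 j)
        linarith
      exact this.trans (mul_le_mul_of_nonneg_right hj (hlogpos j).le)
    have h12 : (0 : ℝ) ≤ H j := by positivity
    linarith
  · intro x hx
    filter_upwards [hsmall (δ - x) (by linarith)] with j hj
    have h1 := cmp_sum (prev j) (NN j) (fun m => loc α ε κ q n₀ (H j) (O j) m ≠ 0)
      (fun m => τ m ≠ 0) (by
        intro m hm1 hm2 hne
        rw [hτj j m hm1 hm2]
        exact hne)
    have h2 := (hO j).2.1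
    have h3 := hprevle j
    have h4 : 4 / ((j : ℝ) + 1) * Real.log (NN j) ≤ (δ - x) * Real.log (NN j) :=
      mul_le_mul_of_nonneg_right hj (hlogpos j).le
    have h5 : 4 / ((j : ℝ) + 1) * Real.log (NN j) = 4 * (Real.log (NN j) / (j + 1)) := by
      ring
    have h6 : (0 : ℝ) ≤ prev j := by positivity
    linarith
  · intro x hx
    filter_upwards [hsmall (x - 2 * κ / W) (by linarith)] with j hj
    have h1 := cmp_sum (prev j) (NN j)
      (fun m => m ≡ c [MOD W] ∧ τ m ≠ 0 ∧ Fr α ε m = -(τ m : ℝ))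
      (fun m => m ≡ c [MOD W] ∧ loc α ε κ q n₀ (H j) (O j) m ≠ 0 ∧
        Fr α ε m = -(loc α ε κ q n₀ (H j) (O j) m : ℝ)) (by
        intro m hm1 hm2 hne
        rw [hτj j m hm1 hm2] at hne
        exact hne)
    have h2 := (hO j).2.2
    have h3 := hprevle j
    have h4 : 4 / ((j : ℝ) + 1) * Real.log (NN j) ≤ (x - 2 * κ / W) * Real.log (NN j) :=
      mul_le_mul_of_nonneg_right hj (hlogpos j).le
    have h5 : 4 / ((j : ℝ) + 1) * Real.log (NN j) = 4 * (Real.log (NN j) / (j + 1)) := by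
      ring
    have h6 : (0 : ℝ) ≤ H j := by positivity
    have h7 : (x - 2 * κ / W) * Real.log (NN j) =
        x * Real.log (NN j) - 2 * κ * Real.log (NN j) / W := by ring
    have h8 := div_pos (hlogpos j) (hj1 j)
    linarith

end Pool.Agent.H27.T2
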