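import Mathlib
import Pool.Agent.H24.T2.Interface

/-!
# Logarithmic sums (module FE of the project T2)
-/

set_option autoImplicit false

open Finset Filter

namespace Pool.Agent.H27.T2

/-- `∑_{1 ≤ n ≤ N} 1 / n ≤ 1 + log N` -/
lemma sum_inv_le (N : ℕ) : ∑ n ∈ Icc 1 N, (1 : ℝ) / n ≤ 1 + Real.log N := by
  have h := harmonic_le_one_add_log N
  rw [harmonic_eq_sum_Icc] at h
  push_cast at h
  simpa [one_div] using h

/-- trivial bound -/
lemma sum_inv_le_self (N : ℕ) : ∑ n ∈ Icc 1 N, (1 : ℝ) / n ≤ N := by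
  calc ∑ n ∈ Icc 1 N, (1 : ℝ) / n ≤ ∑ n ∈ Icc 1 N, (1 : ℝ) := by
        apply Finset.sum_le_sum
        intro n hn
        rw [mem_Icc] at hn
        have : (1 : ℝ) ≤ n := by exact_mod_cast hn.1
        rw [div_le_one (by linarith)]
        exact this
    _ = N := by simp

/-- the sum over one residue class -/
lemma sum_inv_modEq_le (N h o : ℕ) (hh : 0 < h) :
    ∑ n ∈ (Icc 1 N).filter (fun n => n ≡ o [MOD h]), (1 : ℝ) / n ≤
      1 + (1 + Real.log N) / h := by
  classical
  have hhR : (0 : ℝ) < h := by exact_mod_cast hh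
  rw [← Finset.sum_filter_add_sum_filter_not _ (fun n => n < h)]
  have h1 : ∑ n ∈ ((Icc 1 N).filter (fun n => n ≡ o [MOD h])).filter (fun n => n < h),
      (1 : ℝ) / n ≤ 1 := by
    have hc : (((Icc 1 N).filter (fun n => n ≡ o [MOD h])).filter (fun n => n < h)).card ≤ 1 := by
      rw [Finset.card_le_one]
      intro a ha b hb
      rw [mem_filter, mem_filter] at ha hb
      have := ha.1.2.trans hb.1.2.symm
      have h3 : a % h = b % h := this
      rwa [Nat.mod_eq_of_lt ha.2, Nat.mod_eq_of_lt hb.2] at h3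
    calc _ ≤ ∑ n ∈ ((Icc 1 N).filter (fun n => n ≡ o [MOD h])).filter (fun n => n < h),
        (1 : ℝ) := by
          apply Finset.sum_le_sum
          intro n hn
          rw [mem_filter, mem_filter, mem_Icc] at hn
          have : (1 : ℝ) ≤ n := by exact_mod_cast hn.1.1.1
          rw [div_le_one (by linarith)]
          exact this
      _ = ((((Icc 1 N).filter (fun n => n ≡ o [MOD h])).filter (fun n => n < h)).card : ℝ) := by
          simp
      _ ≤ 1 := by exact_mod_cast hc
  have h2 : ∑ n ∈ ((Icc 1 N).filter (fun n => n ≡ o [MOD h])).filter (fun n => ¬ n < h),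
      (1 : ℝ) / n ≤ (1 + Real.log N) / h := by
    have e1 : ∀ n ∈ ((Icc 1 N).filter (fun n => n ≡ o [MOD h])).filter (fun n => ¬ n < h),
        (1 : ℝ) / n ≤ (1 / h) * (1 / ((n / h : ℕ) : ℝ)) := by
      intro n hn
      rw [mem_filter, mem_filter, mem_Icc] at hn
      have h3 : 0 < n / h := Nat.div_pos (not_lt.1 hn.2) hh
      have h4 : (0 : ℝ) < ((n / h : ℕ) : ℝ) := by exact_mod_cast h3
      have h7 : (1 : ℝ) / h * (1 / ((n / h : ℕ) : ℝ)) = 1 / (h * ((n / h : ℕ) : ℝ)) := by
        field_simp
      rw [h7]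
      apply one_div_le_one_div_of_le (by positivity)
      have h5 : h * (n / h) ≤ n := Nat.mul_div_le n h
      have h6 : (h : ℝ) * ((n / h : ℕ) : ℝ) ≤ n := by exact_mod_cast h5
      linarith
    refine (Finset.sum_le_sum e1).trans ?_
    rw [← Finset.mul_sum]
    have e2 : ∑ n ∈ ((Icc 1 N).filter (fun n => n ≡ o [MOD h])).filter (fun n => ¬ n < h),
        (1 : ℝ) / ((n / h : ℕ) : ℝ) ≤ ∑ i ∈ Icc 1 N, (1 : ℝ) / i := by
      have hinj : Set.InjOn (fun n => n / h)
          (((Icc 1 N).filter (fun n => n ≡ o [MOD h])).filter (fun n => ¬ n < h) : Finset ℕ) := by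
        intro a ha b hb hab
        rw [mem_coe, mem_filter, mem_filter] at ha hb
        have h3 : a % h = b % h := ha.1.2.trans hb.1.2.symm
        have h4 := Nat.div_add_mod a h
        have h5 := Nat.div_add_mod b h
        simp only at hab
        rw [← h4, ← h5, hab, h3]
      rw [← Finset.sum_image (f := fun i : ℕ => (1 : ℝ) / (i : ℝ)) hinj]
      apply Finset.sum_le_sum_of_subset_of_nonneg
      · intro i hi
        rw [mem_image] at hi
        obtain ⟨n, hn, rfl⟩ := hi
        rw [mem_filter, mem_filter, mem_Icc] at hn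
        rw [mem_Icc]
        exact ⟨Nat.div_pos (not_lt.1 hn.2) hh, (Nat.div_le_self n h).trans hn.1.1.2⟩
      · intro i _ _
        positivity
    have e3 := e2.trans (sum_inv_le N)
    calc (1 : ℝ) / h * _ ≤ 1 / h * (1 + Real.log N) := by
          apply mul_le_mul_of_nonneg_left e3
          positivity
      _ = (1 + Real.log N) / h := by ring
  linarith

/-- number of elements of a residue class in a window -/
lemma card_window_le (W h n c : ℕ) :
    ((((Ioc n (n + h)).filter (fun m => m ≡ c [MOD W])).card : ℕ) : ℝ) ≤ h / W + 1 := by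
  have h1 : ((Ioc n (n + h)).filter (fun m => m ≡ c [MOD W])).card ≤ h / W + 1 := by
    have hinj : Set.InjOn (fun m => (m - (n + 1)) / W)
        ((Ioc n (n + h)).filter (fun m => m ≡ c [MOD W]) : Finset ℕ) := by
      intro a ha b hb hab
      rw [mem_coe, mem_filter, mem_Ioc] at ha hb
      have h3 : a ≡ b [MOD W] := ha.2.trans hb.2.symm
      have h4 : a - (n + 1) ≡ b - (n + 1) [MOD W] := by
        apply Nat.ModEq.add_right_cancel' (n + 1)
        rw [Nat.sub_add_cancel (by omega), Nat.sub_add_cancel (by omega)]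
        exact h3
      have h5 := Nat.div_add_mod (a - (n + 1)) W
      have h6 := Nat.div_add_mod (b - (n + 1)) W
      have h7 : (a - (n + 1)) % W = (b - (n + 1)) % W := h4
      simp only at hab
      have : a - (n + 1) = b - (n + 1) := by rw [← h5, ← h6, hab, h7]
      omega
    have hsub : ((Ioc n (n + h)).filter (fun m => m ≡ c [MOD W])).image
        (fun m => (m - (n + 1)) / W) ⊆ range (h / W + 1) := by
      intro i hi
      rw [mem_image] at hi
      obtain ⟨m, hm, rfl⟩ := hi
      rw [mem_filter, mem_Ioc] at hm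
      rw [mem_range, Nat.lt_succ_iff]
      apply Nat.div_le_div_right
      omega
    rw [← Finset.card_image_of_injOn hinj]
    refine (Finset.card_le_card hsub).trans ?_
    rw [card_range]
  have h2 : ((h / W : ℕ) : ℝ) ≤ (h : ℝ) / W := Nat.cast_div_le
  have h3 : ((((Ioc n (n + h)).filter (fun m => m ≡ c [MOD W])).card : ℕ) : ℝ) ≤
      ((h / W + 1 : ℕ) : ℝ) := by exact_mod_cast h1
  push_cast at h3
  linarith

end Pool.Agent.H27.T2
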