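import Pool.Agent.H27.T2.Logs

/-!
# The bad windows (module FE of the project T2)
-/

set_option autoImplicit false

open Finset Filter

namespace Pool.Agent.H27.T2

open Pool.Agent.H24.T2 (Fr)

variable {r : ℕ} (α : Fin r → ℤ) (ε : Fin r → ℕ)

lemma Fr_val (m : ℕ) : Fr α ε m = 0 ∨ Fr α ε m = 1 ∨ Fr α ε m = -1 := by
  unfold Fr
  apply Finset.prod_induction _ (fun x : ℝ => x = 0 ∨ x = 1 ∨ x = -1)
  · rintro a b (rfl | rfl | rfl) (rfl | rfl | rfl) <;> simp
  · simp
  · intro i _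
    generalize hx : ((ArithmeticFunction.moebius (((m : ℤ) + α i).toNat) : ℤ) : ℝ) = x
    have h0 : x = 0 ∨ x = 1 ∨ x = -1 := by
      rw [← hx]
      rcases ArithmeticFunction.moebius_eq_or (((m : ℤ) + α i).toNat) with h | h | h
      · left
        rw [h]
        simp
      · right
        left
        rw [h]
        simp
      · right
        right
        rw [h]
        simp
    induction ε i with
    | zero => simp
    | succ n ih =>
      rw [pow_succ]
      rcases ih with h1 | h1 | h1 <;> rcases h0 with h2 | h2 | h2 <;> rw [h1, h2] <;> simp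

open Classical in
/-- the window -/
noncomputable def win (q n₀ n h : ℕ) : Finset ℕ :=
  (Ioc n (n + h)).filter (fun m => m ≡ n₀ [MOD q])

/-- the sign of the window -/
noncomputable def sg (q n₀ n h : ℕ) : ℤ :=
  if 0 ≤ ∑ m ∈ win q n₀ n h, Fr α ε m then 1 else -1

lemma sg_val (q n₀ n h : ℕ) : sg α ε q n₀ n h = 1 ∨ sg α ε q n₀ n h = -1 := by
  unfold sg
  split_ifs
  · exact Or.inl rfl
  · exact Or.inr rfl

/-- bad windows -/
def BadW (κ : ℝ) (q n₀ n h : ℕ) : Prop :=
  (1 - κ) * (∑ m ∈ win q n₀ n h, |Fr α ε m|) < |∑ m ∈ win q n₀ n h, Fr α ε m|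

open Classical in
/-- in a bad window the opposite sign is rare -/
lemma card_opp_le {κ : ℝ} {q n₀ n h : ℕ} (hb : BadW α ε κ q n₀ n h) :
    2 * (((win q n₀ n h).filter
        (fun m => Fr α ε m = -(sg α ε q n₀ n h : ℝ))).card : ℝ) ≤
      κ * (((win q n₀ n h).filter (fun m => Fr α ε m ≠ 0)).card : ℝ) := by
  unfold BadW at hb
  have hs : (sg α ε q n₀ n h : ℝ) * ∑ m ∈ win q n₀ n h, Fr α ε m =
      |∑ m ∈ win q n₀ n h, Fr α ε m| := by
    unfold sg
    split_ifs with h0
    · rw [abs_of_nonneg h0]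
      simp
    · rw [abs_of_neg (not_le.1 h0)]
      push_cast
      ring
  have habs : ∑ m ∈ win q n₀ n h, |Fr α ε m| =
      (((win q n₀ n h).filter (fun m => Fr α ε m ≠ 0)).card : ℝ) := by
    rw [Finset.card_eq_sum_ones, Nat.cast_sum, Finset.sum_filter]
    apply Finset.sum_congr rfl
    intro m _
    rcases Fr_val α ε m with h1 | h1 | h1 <;> rw [h1] <;> simp
  have hopp : 2 * (((win q n₀ n h).filter
        (fun m => Fr α ε m = -(sg α ε q n₀ n h : ℝ))).card : ℝ) =
      ∑ m ∈ win q n₀ n h, |Fr α ε m| -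
        (sg α ε q n₀ n h : ℝ) * ∑ m ∈ win q n₀ n h, Fr α ε m := by
    rw [Finset.card_eq_sum_ones, Nat.cast_sum, Finset.sum_filter, Finset.mul_sum,
      Finset.mul_sum, ← Finset.sum_sub_distrib]
    apply Finset.sum_congr rfl
    intro m _
    rcases Fr_val α ε m with h1 | h1 | h1 <;> rcases sg_val α ε q n₀ n h with h2 | h2 <;>
      rw [h1, h2] <;> norm_num
  rw [hopp, hs]
  rw [habs] at hb ⊢
  linarith

open Classical in
/-- the good classes -/
noncomputable def good (q n₀ w W : ℕ) : Finset ℕ :=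
  (range W).filter (fun c => c ≡ n₀ [MOD q] ∧
    ∀ i, ∀ p : ℕ, p.Prime → p ≤ w → ¬ ((p : ℤ) ^ 2 ∣ (c : ℤ) + α i))

lemma Fr_eq_zero_of_sq (hε : ∀ i, 1 ≤ ε i) (m : ℕ) (i : Fin r) (p : ℕ) (hp : p.Prime)
    (h : (p : ℤ) ^ 2 ∣ (m : ℤ) + α i) : Fr α ε m = 0 := by
  unfold Fr
  apply Finset.prod_eq_zero (mem_univ i)
  have h1 : ArithmeticFunction.moebius (((m : ℤ) + α i).toNat) = 0 := by
    apply ArithmeticFunction.moebius_eq_zero_of_not_squarefree
    intro hsq
    rcases lt_or_ge 0 ((m : ℤ) + α i) with h0 | h0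
    · have h2 : p * p ∣ ((m : ℤ) + α i).toNat := by
        have h3 : ((p * p : ℕ) : ℤ) ∣ ((((m : ℤ) + α i).toNat : ℕ) : ℤ) := by
          rw [Int.toNat_of_nonneg h0.le]
          push_cast
          rwa [← pow_two]
        exact_mod_cast h3
      have := hsq p h2
      rw [Nat.isUnit_iff] at this
      exact hp.one_lt.ne' this
    · rw [Int.toNat_of_nonpos h0] at hsq
      exact not_squarefree_zero hsq
  rw [h1]
  have := hε i
  simp
  omega

/-- the class of a nonzero value is good -/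
lemma mem_good (hε : ∀ i, 1 ≤ ε i) {q n₀ w W m : ℕ} (hW : 0 < W) (hqW : q ∣ W)
    (hsqW : ∀ p : ℕ, p.Prime → p ≤ w → p ^ 2 ∣ W) (hm : m ≡ n₀ [MOD q])
    (hF : Fr α ε m ≠ 0) : m % W ∈ good α q n₀ w W := by
  classical
  unfold good
  rw [mem_filter, mem_range]
  refine ⟨Nat.mod_lt _ hW, ?_, ?_⟩
  · exact ((Nat.mod_modEq m W).of_dvd hqW).trans hm
  · intro i p hp hpw hd
    apply hF
    apply Fr_eq_zero_of_sq α ε hε m i p hp
    have h1 : ((p : ℤ)) ^ 2 ∣ (W : ℤ) := by exact_mod_cast hsqW p hp hpw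
    have h2 : (m : ℤ) = ((m % W : ℕ) : ℤ) + W * ((m / W : ℕ) : ℤ) := by
      exact_mod_cast (Nat.mod_add_div m W).symm
    rw [h2]
    have h3 : ((m % W : ℕ) : ℤ) + W * ((m / W : ℕ) : ℤ) + α i =
        (((m % W : ℕ) : ℤ) + α i) + W * ((m / W : ℕ) : ℤ) := by ring
    rw [h3]
    exact dvd_add hd (h1.mul_right _)

open Classical in
/-- number of opposite signs in one class -/
noncomputable def opp (q n₀ W c n h : ℕ) : ℕ :=
  ((Ioc n (n + h)).filter
    (fun m => m ≡ c [MOD W] ∧ Fr α ε m = -(sg α ε q n₀ n h : ℝ))).card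

open Classical in
/-- [A1] -/
lemma sum_opp_le (hε : ∀ i, 1 ≤ ε i) {κ : ℝ} (hκ : 0 ≤ κ) {q n₀ w W n h : ℕ} (hW : 0 < W)
    (hqW : q ∣ W) (hsqW : ∀ p : ℕ, p.Prime → p ≤ w → p ^ 2 ∣ W)
    (hb : BadW α ε κ q n₀ n h) :
    ∑ c ∈ good α q n₀ w W, (opp α ε q n₀ W c n h : ℝ) ≤
      κ / 2 * ((good α q n₀ w W).card * (h / W + 1)) := by
  have h1 := card_opp_le α ε hb
  have h2 : ∑ c ∈ good α q n₀ w W, (opp α ε q n₀ W c n h : ℝ) ≤
      (((win q n₀ n h).filter
        (fun m => Fr α ε m = -(sg α ε q n₀ n h : ℝ))).card : ℝ) := by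
    rw [← Nat.cast_sum, Nat.cast_le]
    unfold opp
    rw [← Finset.card_biUnion]
    · apply Finset.card_le_card
      intro m hm
      rw [mem_biUnion] at hm
      obtain ⟨c, hc, hm⟩ := hm
      rw [mem_filter] at hm
      unfold good at hc
      rw [mem_filter] at hc
      unfold win
      rw [mem_filter, mem_filter]
      exact ⟨⟨hm.1, (hm.2.1.of_dvd hqW).trans hc.2.1⟩, hm.2.2⟩
    · intro c hc c' hc' hne
      refine Finset.disjoint_left.2 ?_
      intro m hm hm'
      rw [mem_filter] at hm hm'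
      unfold good at hc hc'
      rw [mem_coe, mem_filter, mem_range] at hc hc'
      apply hne
      have h3 : c % W = c' % W := hm.2.1.symm.trans hm'.2.1
      rwa [Nat.mod_eq_of_lt hc.1, Nat.mod_eq_of_lt hc'.1] at h3
  have h3 : (((win q n₀ n h).filter (fun m => Fr α ε m ≠ 0)).card : ℝ) ≤
      (good α q n₀ w W).card * (h / W + 1) := by
    have h4 : ((win q n₀ n h).filter (fun m => Fr α ε m ≠ 0)).card ≤
        ∑ c ∈ good α q n₀ w W, ((Ioc n (n + h)).filter (fun m => m ≡ c [MOD W])).card := by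
      refine le_trans (Finset.card_le_card ?_) Finset.card_biUnion_le
      intro m hm
      rw [mem_filter] at hm
      unfold win at hm
      rw [mem_filter] at hm
      rw [mem_biUnion]
      refine ⟨m % W, mem_good α ε hε hW hqW hsqW hm.1.2 hm.2, ?_⟩
      rw [mem_filter]
      exact ⟨hm.1.1, (Nat.mod_modEq m W).symm⟩
    have h5 : (((win q n₀ n h).filter (fun m => Fr α ε m ≠ 0)).card : ℝ) ≤
        ∑ c ∈ good α q n₀ w W,
          (((Ioc n (n + h)).filter (fun m => m ≡ c [MOD W])).card : ℝ) := by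
      exact_mod_cast h4
    refine h5.trans ((Finset.sum_le_card_nsmul _ _ _ fun c _ => card_window_le W h n c).trans ?_)
    rw [nsmul_eq_mul]
  nlinarith

end Pool.Agent.H27.T2
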